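import Pool.Agent.helper61.CSW.PP.SpecA

/-!
# Project csw: (MP_70a088_an, class S, block W), module PSM: sums over the preimages are sums over the partition
-/

set_option autoImplicit false

open Complex Metric Set Filter Topology MeasureTheory MPS

noncomputable section

open CSS (SE)

namespace SPPS

theorem PSM_gen {M : Type*} [AddCommMonoid M] [TopologicalSpace M] (f : SE) (A : ℕ → Set ℂ)
    (hdj : Pairwise (Function.onFun Disjoint A)) (hun : (⋃ n, A n) = univ)
    (hinj : ∀ n, InjOn (fun z => f.eval z) (A n)) (s : ℕ → ℂ → ℂ)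
    (h1 : ∀ n, ∀ z ∈ (fun z => f.eval z) '' (A n), s n z ∈ A n ∧ f.eval (s n z) = z)
    (φ : ℂ → M) (z : ℂ) :
    (Summable (fun y : pre f z => φ y) ↔ Summable fun n : ℕ => ((fun z => f.eval z) '' (A n)).indicator (fun z => φ (s n z)) z) ∧
    ∑' y : pre f z, φ y = ∑' n : ℕ, ((fun z => f.eval z) '' (A n)).indicator (fun z => φ (s n z)) z := by
  have hex : ∀ y : ℂ, ∃ n, y ∈ A n := fun y => by
    have : y ∈ ⋃ n, A n := by rw [hun]; exact mem_univ y
    exact mem_iUnion.1 this
  choose idx hidx using hex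
  have huq : ∀ (y : ℂ) (n : ℕ), y ∈ A n → idx y = n := by
    intro y n hy
    by_contra hne
    exact Set.disjoint_left.1 (hdj hne) (hidx y) hy
  let I : Set ℕ := {n | z ∈ (fun z => f.eval z) '' (A n)}
  let e : I ≃ pre f z :=
    { toFun := fun n => ⟨s n z, (h1 n z n.2).2⟩
      invFun := fun y => ⟨idx y, ⟨y, hidx y, y.2⟩⟩
      left_inv := by
        rintro ⟨n, hn⟩
        apply Subtype.ext
        exact huq _ n (h1 n z hn).1
      right_inv := by
        rintro ⟨y, hy⟩
        apply Subtype.ext
        have hz : z ∈ (fun z => f.eval z) '' (A (idx y)) := ⟨y, hidx y, hy⟩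
        have h2 := h1 (idx y) z hz
        exact hinj (idx y) h2.1 (hidx y) (h2.2.trans hy.symm) }
  have hind : (fun n : ℕ => ((fun z => f.eval z) '' (A n)).indicator (fun z => φ (s n z)) z) =
      I.indicator (fun n => φ (s n z)) := by
    funext n
    by_cases hn : n ∈ I
    · rw [Set.indicator_of_mem hn, Set.indicator_of_mem (show z ∈ (fun z => f.eval z) '' (A n) from hn)]
    · rw [Set.indicator_of_notMem hn, Set.indicator_of_notMem (show z ∉ (fun z => f.eval z) '' (A n) from hn)]
  rw [hind]
  constructor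
  · rw [← e.summable_iff, ← summable_subtype_iff_indicator]
    rfl
  · rw [← e.tsum_eq, ← tsum_subtype]
    rfl

theorem PSM : PSM_stmt := by
  intro f A hdj hun hinj
  have h1 : ∀ n, ∀ z ∈ (fun z => f.eval z) '' (A n),
      Function.invFunOn (fun z => f.eval z) (A n) z ∈ A n ∧ f.eval (Function.invFunOn (fun z => f.eval z) (A n) z) = z := by
    intro n z hz
    exact ⟨Function.invFunOn_mem hz, Function.invFunOn_eq hz⟩
  refine ⟨fun n => Function.invFunOn (fun z => f.eval z) (A n), fun n => rfl, h1, ?_, ?_, ?_, ?_⟩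
  · intro n y hy
    have h2 := h1 n (f.eval y) ⟨y, hy, rfl⟩
    exact hinj n h2.1 hy h2.2
  · intro φ z
    exact (PSM_gen f A hdj hun hinj _ h1 φ z).2
  · intro φ z
    exact PSM_gen f A hdj hun hinj _ h1 φ z
  · intro φ z
    exact PSM_gen f A hdj hun hinj _ h1 φ z

end SPPS
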